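import Pool.Agent.K4H10.PR.Final

/-!
# The `p`-rationality level of characters induced from subgroups of `p'`-index

`lev p χ` is the `p`-rationality level: the `p`-part exponent of the least `n ≥ 1` such that all values
of `χ` lie in `ℚ(e^{2πi/n})`; `ind M ψ` is the induced class function; `char ρ` is the character of `ρ`.
`linCount ρ k` is the number, with multiplicity, of linear constituents `λ` of `ρ` with `λ ^ k ≠ 1`;
`res` is restriction to a subgroup, `lin μ` the linear character `μ` as a complex valued function.
-/

namespace Pool.Agent.Results.MP_1aae89_al.MonomialCharacters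

open Pool.Agent.K4H10.PR
open scoped Classical

/-- (1) Criterion: let `P ≤ M ≤ G`, `P` a Sylow `p`-subgroup of `G`, `ψ` the character of a
representation `ρ` of `M` (irreducible or not), of level `a ≥ 2`. If the number (with multiplicity) of
linear constituents of `ψ` restricted to `P` whose order is at least `p ^ a` is not divisible by `p`,
then the induced character has level `a`.
(2) Let `p` be prime to `|G : M|`. Every monomial character `ψ = μ ^ M` of `M` of degree prime to `p`
and level at least `2` satisfies `lev (ψ ^ G) = lev ψ`. -/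
theorem result :
    (∀ (p a : ℕ), p.Prime → 2 ≤ a → ∀ {G : Type} [Group G] [Fintype G] (M P : Subgroup G)
      (hPM : P ≤ M), IsPGroup p P → ¬ p ∣ P.index →
      ∀ {V : Type} [AddCommGroup V] [Module ℂ V] [FiniteDimensional ℂ V] (ρ : Rep M V),
        lev p (char ρ) = a → ¬ p ∣ linCount (res hPM ρ) (p ^ (a - 1)) →
        lev p (ind M (char ρ)) = a) ∧
    (∀ (p : ℕ), p.Prime → ∀ {G : Type} [Group G] [Fintype G] (M : Subgroup G), ¬ p ∣ M.index →
      ∀ (H : Subgroup M), ¬ p ∣ H.index → ∀ (μ : LinChar H),
        2 ≤ lev p (ind H (lin μ)) →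
        lev p (ind M (ind H (lin μ))) = lev p (ind H (lin μ))) := by
  refine ⟨?_, ?_⟩
  · intro p a hp ha G _ _ M P hPM hPp hPi V _ _ _ ρ hlev hcount
    exact criterion con inv pow p a hp ha M P hPM hPp hPi ρ hlev hcount
  · intro p hp G _ _ M hMi H hHi μ hlev
    exact monomial p hp M hMi H hHi μ hlev

end Pool.Agent.Results.MP_1aae89_al.MonomialCharacters
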